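import Mathlib
import Pool.Agent.H770R2.UL.Main

/-! Elementary facts on the 2-norm of a tracial state. -/

open scoped ComplexOrder

namespace Pool.Agent.H770R2.UL

variable {A : Type} [CStarAlgebra A]

theorem TrSt.star_eq (φ : TrSt A) (x : A) : φ.toFun (star x) = star (φ.toFun x) := by
  -- polarisation with `1`
  have h1 := φ.pos (1 + x)
  have h2 := φ.pos (1 + Complex.I • x)
  have h3 := φ.pos x
  have e1 : φ.toFun (star (1 + x) * (1 + x)) =
      1 + φ.toFun x + φ.toFun (star x) + φ.toFun (star x * x) := by
    have : star (1 + x) * (1 + x) = 1 + x + star x + star x * x := by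
      simp [mul_add, add_mul]; abel
    rw [this, map_add, map_add, map_add, φ.one]
  have e2 : φ.toFun (star (1 + Complex.I • x) * (1 + Complex.I • x)) =
      1 + Complex.I * φ.toFun x - Complex.I * φ.toFun (star x) + φ.toFun (star x * x) := by
    have hI : star (Complex.I • x) * (Complex.I • x) = star x * x := by
      rw [star_smul, smul_mul_smul_comm]
      simp
    have hI2 : star (Complex.I • x) = - (Complex.I • star x) := by
      rw [star_smul]
      simp
    have : star (1 + Complex.I • x) * (1 + Complex.I • x) =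
        1 + Complex.I • x - Complex.I • star x + star x * x := by
      rw [star_add, star_one, add_mul, mul_add, mul_add, hI, one_mul, one_mul, mul_one, hI2]
      abel
    rw [this, map_add, map_sub, map_add, φ.one, map_smul, map_smul, smul_eq_mul, smul_eq_mul]
  rw [e1] at h1
  rw [e2] at h2
  have i1 := (Complex.le_def.1 h1).2
  have i2 := (Complex.le_def.1 h2).2
  have i3 := (Complex.le_def.1 h3).2
  simp only [Complex.zero_im, Complex.add_im, Complex.one_im, Complex.sub_im, Complex.mul_im,
    Complex.I_re, Complex.I_im, zero_mul, one_mul, zero_add] at i1 i2 i3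
  apply Complex.ext
  · simp only [Complex.star_def, Complex.conj_re]
    linarith
  · simp only [Complex.star_def, Complex.conj_im]
    linarith

/-- the inner product `⟨x, y⟩ = φ(x* y)` -/
@[instance_reducible]
noncomputable def core (φ : TrSt A) : PreInnerProductSpace.Core ℂ A where
  inner x y := φ.toFun (star x * y)
  conj_inner_symm x y := by
    show (starRingEnd ℂ) (φ.toFun (star y * x)) = φ.toFun (star x * y)
    have h := φ.star_eq (star y * x)
    rw [star_mul, star_star] at h
    exact h.symm
  re_inner_nonneg x := (Complex.le_def.1 (φ.pos x)).1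
  add_left x y z := by
    show φ.toFun (star (x + y) * z) = _
    rw [star_add, add_mul, map_add]
  smul_left x y r := by
    show φ.toFun (star (r • x) * y) = _
    rw [star_smul, smul_mul_assoc, map_smul]
    rfl

theorem cauchy (φ : TrSt A) (x y : A) : ‖φ.toFun (star x * y)‖ ≤ n2 φ x * n2 φ y :=
  @InnerProductSpace.Core.norm_inner_le_norm ℂ A _ _ _ (core φ) x y

theorem n2_add_le (φ : TrSt A) (x y : A) : n2 φ (x + y) ≤ n2 φ x + n2 φ y := by
  apply Real.sqrt_le_iff.2
  refine ⟨add_nonneg (n2_nonneg _ _) (n2_nonneg _ _), ?_⟩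
  have e : star (x + y) * (x + y) = star x * x + star x * y + star y * x + star y * y := by
    rw [star_add]; noncomm_ring
  rw [e, map_add, map_add, map_add, Complex.add_re, Complex.add_re, Complex.add_re]
  have h1 := (Complex.re_le_norm _).trans (cauchy φ x y)
  have h2 := (Complex.re_le_norm _).trans (cauchy φ y x)
  have h3 := n2_sq φ x
  have h4 := n2_sq φ y
  nlinarith

theorem n2_smul (φ : TrSt A) (c : ℂ) (x : A) : n2 φ (c • x) = ‖c‖ * n2 φ x := by
  unfold n2
  have e : star (c • x) * (c • x) = (star c * c) • (star x * x) := by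
    rw [star_smul, smul_mul_smul_comm]
  rw [e, map_smul, smul_eq_mul]
  have e2 : star c * c = ((‖c‖ ^ 2 : ℝ) : ℂ) := by
    have := Complex.conj_mul' c
    simpa using this
  rw [e2, Complex.re_ofReal_mul, Real.sqrt_mul (by positivity), Real.sqrt_sq (norm_nonneg _)]

theorem n2_neg (φ : TrSt A) (x : A) : n2 φ (-x) = n2 φ x := by
  unfold n2
  simp

theorem n2_sub_comm (φ : TrSt A) (x y : A) : n2 φ (x - y) = n2 φ (y - x) := by
  rw [← n2_neg, neg_sub]

theorem n2_sub_le (φ : TrSt A) (x y : A) : n2 φ (x - y) ≤ n2 φ x + n2 φ y := by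
  rw [sub_eq_add_neg, ← n2_neg φ y]
  exact n2_add_le φ x (-y)

theorem n2_le_norm (φ : TrSt A) (x : A) : n2 φ x ≤ ‖x‖ := by
  apply Real.sqrt_le_iff.2
  refine ⟨norm_nonneg _, ?_⟩
  refine (Complex.re_le_norm _).trans ((φ.bdd _).trans ?_)
  rw [CStarRing.norm_star_mul_self, sq]

theorem n2_star (φ : TrSt A) (x : A) : n2 φ (star x) = n2 φ x := by
  unfold n2
  rw [star_star, φ.tr]

theorem n2_unitary_mul (φ : TrSt A) {u : A} (hu : u ∈ unitary A) (x : A) :
    n2 φ (u * x) = n2 φ x := by
  unfold n2
  have e : star (u * x) * (u * x) = star x * x := by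
    rw [star_mul, mul_assoc, ← mul_assoc (star u), (Unitary.mem_iff.1 hu).1, one_mul]
  rw [e]

theorem n2_mul_unitary (φ : TrSt A) {u : A} (hu : u ∈ unitary A) (x : A) :
    n2 φ (x * u) = n2 φ x := by
  rw [← n2_star, star_mul, n2_unitary_mul φ (Unitary.star_mem hu), n2_star]

theorem n2_one (φ : TrSt A) : n2 φ 1 = 1 := by
  unfold n2
  simp [φ.one]

theorem n2_sum_le (φ : TrSt A) {ι : Type} (s : Finset ι) (f : ι → A) :
    n2 φ (∑ i ∈ s, f i) ≤ ∑ i ∈ s, n2 φ (f i) := by
  classical
  induction s using Finset.induction_on with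
  | empty => simp [n2]
  | insert a s ha ih =>
    rw [Finset.sum_insert ha, Finset.sum_insert ha]
    exact (n2_add_le φ _ _).trans (by linarith)

/-- the 2-norm is continuous for the norm -/
theorem continuous_n2 (φ : TrSt A) : Continuous (n2 φ) := by
  rw [Metric.continuous_iff]
  intro b ε hε
  refine ⟨ε, hε, fun a ha => ?_⟩
  rw [dist_eq_norm] at ha
  rw [Real.dist_eq, abs_lt]
  have h1 : n2 φ a ≤ n2 φ (a - b) + n2 φ b := by
    have := n2_add_le φ (a - b) b
    rwa [sub_add_cancel] at this
  have h2 : n2 φ b ≤ n2 φ (a - b) + n2 φ a := by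
    have := n2_add_le φ (b - a) a
    rw [sub_add_cancel, n2_sub_comm] at this
    exact this
  have h3 := n2_le_norm φ (a - b)
  constructor <;> linarith

/-- a tracial state is continuous -/
theorem continuous_toFun (φ : TrSt A) : Continuous φ.toFun := by
  exact AddMonoidHomClass.continuous_of_bound φ.toFun 1 (by simpa using φ.bdd)

end Pool.Agent.H770R2.UL
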