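import Mathlib
import Pool.Agent.H581R.FF.Stubs
import Pool.Agent.H770R2.FA.Nrm

/-! Evaluation of elements of the group ring of a free group in a C*-algebra with a tracial state. -/

open scoped ComplexOrder ComplexConjugate

namespace Pool.Agent.H770R2.FA

open Pool.Agent.H581R.FF hiding n2
open Pool.Agent.H770R2.UL

variable {κ : Type} {A : Type} [CStarAlgebra A]

/-- the free law -/
def StdA (φ : TrSt A) (π : FreeGroup κ →* unitary A) : Prop :=
  ∀ w, w ≠ 1 → φ.toFun (π w : A) = 0

theorem ev_bs (π : FreeGroup κ →* unitary A) (w : FreeGroup κ) : ev π (bs w) = (π w : A) := by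
  unfold ev bs
  rw [MonoidAlgebra.lift_single]
  simp

theorem ev_eq_sum (π : FreeGroup κ →* unitary A) (f : GR κ) :
    ev π f = ∑ w ∈ f.coeff.support, f.coeff w • (π w : A) := by
  unfold ev
  rw [MonoidAlgebra.lift_apply]
  rfl

theorem norm_unitary_le (u : unitary A) : ‖(u : A)‖ ≤ 1 := by
  rcases subsingleton_or_nontrivial A with h | h
  · have : (u : A) = 0 := Subsingleton.elim _ _
    rw [this]; simp
  · exact (CStarRing.norm_coe_unitary u).le

theorem norm_ev_le (π : FreeGroup κ →* unitary A) (f : GR κ) : ‖ev π f‖ ≤ l1 f := by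
  rw [ev_eq_sum]
  refine (norm_sum_le _ _).trans ?_
  unfold l1
  refine Finset.sum_le_sum fun w _ => ?_
  rw [norm_smul]
  have h1 := norm_unitary_le (π w)
  have h2 := norm_nonneg (f.coeff w)
  nlinarith

theorem phi_ev (φ : TrSt A) (π : FreeGroup κ →* unitary A) (hπ : StdA φ π) (f : GR κ) :
    φ.toFun (ev π f) = f.coeff 1 := by
  classical
  rw [ev_eq_sum, map_sum]
  have h : ∀ w ∈ f.coeff.support,
      φ.toFun (f.coeff w • (π w : A)) = if w = 1 then f.coeff 1 else 0 := by
    intro w _
    rw [map_smul, smul_eq_mul]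
    split_ifs with hw
    · subst hw
      have h1 : ((π 1 : unitary A) : A) = 1 := by rw [map_one]; rfl
      rw [h1, φ.one, mul_one]
    · rw [hπ w hw, mul_zero]
  rw [Finset.sum_congr rfl h, Finset.sum_ite_eq']
  split_ifs with h1
  · rfl
  · exact (Finsupp.notMem_support_iff.1 h1).symm

theorem st_single (w : FreeGroup κ) (c : ℂ) :
    st (MonoidAlgebra.single w c : GR κ) = MonoidAlgebra.single w⁻¹ (conj c) := by
  unfold st
  rw [MonoidAlgebra.coeff_single, Finsupp.sum_single_index]
  simp

theorem st_bs (w : FreeGroup κ) : st (bs w) = bs w⁻¹ := by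
  rw [bs, st_single, map_one]

theorem st_add (f g : GR κ) : st (f + g) = st f + st g := by
  unfold st
  rw [MonoidAlgebra.coeff_add, Finsupp.sum_add_index']
  · intro w; simp
  · intro w b c; simp

theorem st_zero : st (0 : GR κ) = 0 := by
  unfold st
  simp

theorem st_mul (f g : GR κ) : st (f * g) = st g * st f := by
  induction f using MonoidAlgebra.induction_linear with
  | zero => rw [zero_mul, st_zero, mul_zero]
  | add a b ha hb => rw [add_mul, st_add, st_add, ha, hb, mul_add]
  | single w c =>
    induction g using MonoidAlgebra.induction_linear with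
    | zero => rw [mul_zero, st_zero, zero_mul]
    | add a b ha hb => rw [mul_add, st_add, st_add, ha, hb, add_mul]
    | single v d =>
      rw [MonoidAlgebra.single_mul_single, st_single, st_single, st_single,
        MonoidAlgebra.single_mul_single, mul_inv_rev, map_mul, mul_comm]

theorem st_smul (c : ℂ) (f : GR κ) : st (c • f) = conj c • st f := by
  induction f using MonoidAlgebra.induction_linear with
  | zero => rw [smul_zero, st_zero, smul_zero]
  | add a b ha hb => rw [smul_add, st_add, st_add, ha, hb, smul_add]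
  | single w d =>
    rw [MonoidAlgebra.smul_single', st_single, st_single, MonoidAlgebra.smul_single', map_mul]

theorem ev_st (π : FreeGroup κ →* unitary A) (f : GR κ) : ev π (st f) = star (ev π f) := by
  induction f using MonoidAlgebra.induction_linear with
  | zero => rw [st_zero, map_zero, star_zero]
  | add a b ha hb => rw [st_add, map_add, map_add, star_add, ha, hb]
  | single w c =>
    rw [st_single]
    unfold ev
    rw [MonoidAlgebra.lift_single, MonoidAlgebra.lift_single, star_smul]
    congr 1
    show ((π w⁻¹ : unitary A) : A) = star ((π w : unitary A) : A)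
    rw [map_inv]
    rfl

theorem coeff_st_mul_self (f : GR κ) :
    (st f * f).coeff 1 = ((∑ w ∈ f.coeff.support, ‖f.coeff w‖ ^ 2 : ℝ) : ℂ) := by
  classical
  have h : ∀ g : GR κ, (st f * g).coeff 1 = ∑ w ∈ f.coeff.support, conj (f.coeff w) * g.coeff w := by
    intro g
    have e : st f = ∑ w ∈ f.coeff.support, MonoidAlgebra.single w⁻¹ (conj (f.coeff w)) := rfl
    rw [e, Finset.sum_mul, MonoidAlgebra.coeff_sum, Finset.sum_apply']
    refine Finset.sum_congr rfl fun w _ => ?_
    rw [MonoidAlgebra.coeff_single_mul_apply]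
    simp
  rw [h]
  push_cast
  refine Finset.sum_congr rfl fun w _ => ?_
  rw [Complex.conj_mul']

theorem n2_ev (φ : TrSt A) (π : FreeGroup κ →* unitary A) (hπ : StdA φ π) (f : GR κ) :
    n2 φ (ev π f) = l2 f := by
  unfold n2 l2
  rw [← ev_st, ← map_mul, phi_ev φ π hπ, coeff_st_mul_self, Complex.ofReal_re]

end Pool.Agent.H770R2.FA
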