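import Mathlib
import Pool.Agent.H581R.FF.TFOU
import Pool.Agent.H770R2.FA.Ev

/-! Approximation of a Haar unitary of a tracial C*-algebra by exponentials of trigonometric
polynomials. -/

set_option autoImplicit false

namespace Pool.Agent.H770R2.FA

open Pool.Agent.H581R.FF hiding n2
open Pool.Agent.H581R.FF.TFOU (Cc cl kf kf_zero kf_neg nk_kf agL pf key cl_pf)
open Pool.Agent.H770R2.UL
open MeasureTheory
open scoped ComplexConjugate ENNReal ComplexOrder

section pair

variable {A : Type} [CStarAlgebra A] (V : unitary A)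

/-- Pairs of powers. -/
noncomputable def Wm (m : ℤ) : A × Cc := (((V ^ m : unitary A) : A), fourier m)

theorem Wm_add (m n : ℤ) : Wm V (m + n) = Wm V m * Wm V n := by
  refine Prod.ext ?_ ?_
  · simp [Wm, zpow_add]
  · ext x
    simp only [Wm, Prod.snd_mul, ContinuousMap.mul_apply]
    exact fourier_add

theorem Wm_zero : Wm V 0 = 1 := by
  refine Prod.ext ?_ ?_
  · simp [Wm]
  · ext x
    simp only [Wm, Prod.snd_one, ContinuousMap.one_apply]
    exact fourier_zero

/-- The algebra generated by the pairs. -/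
noncomputable def S : Subalgebra ℂ (A × Cc) :=
  (Submodule.span ℂ (Set.range (Wm V))).toSubalgebra
    (by rw [← Wm_zero V]; exact Submodule.subset_span ⟨0, rfl⟩)
    (by
      intro x y hx hy
      have h := Submodule.mul_mem_mul hx hy
      rw [Submodule.span_mul_span] at h
      refine Submodule.span_mono ?_ h
      rintro _ ⟨_, ⟨m, rfl⟩, _, ⟨n, rfl⟩, rfl⟩
      exact ⟨m + n, Wm_add V m n⟩)

theorem mem_S {x : A × Cc} : x ∈ S V ↔ x ∈ Submodule.span ℂ (Set.range (Wm V)) := Iff.rfl

/-- The exponential stays in the closure. -/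
theorem exp_mem {y : A × Cc} (hy : y ∈ S V) : NormedSpace.exp y ∈ (S V).topologicalClosure := by
  have h1 := NormedSpace.exp_series_hasSum_exp' (𝕂 := ℂ) y
  have h2 : IsClosed ((S V).topologicalClosure : Set (A × Cc)) := (S V).isClosed_topologicalClosure
  refine h2.mem_of_tendsto h1 (Filter.Eventually.of_forall fun s => ?_)
  refine (S V).le_topologicalClosure ?_
  exact Subalgebra.sum_mem _ fun n _ => Subalgebra.smul_mem _ (Subalgebra.pow_mem _ hy n) _

theorem n2_comb (φ : TrSt A) (hV : ∀ m : ℤ, m ≠ 0 → φ.toFun ((V ^ m : unitary A) : A) = 0)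
    (q : ℤ →₀ ℂ) : n2 φ (q.sum fun i a => a • ((V ^ i : unitary A) : A)) =
      √(RCLike.re (q.sum fun i y => conj y * q i)) := by
  unfold n2
  congr 1
  have h1 : ∀ i j : ℤ, φ.toFun (star ((V ^ i : unitary A) : A) * ((V ^ j : unitary A) : A)) =
      if i = j then 1 else 0 := by
    intro i j
    have e : star ((V ^ i : unitary A) : A) * ((V ^ j : unitary A) : A) =
        ((V ^ (j - i) : unitary A) : A) := by
      rw [sub_eq_neg_add, zpow_add, zpow_neg]
      rfl
    rw [e]
    split_ifs with h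
    · subst h
      rw [sub_self, zpow_zero, OneMemClass.coe_one, φ.one]
    · exact hV _ (sub_ne_zero.2 (Ne.symm h))
  have h2 : φ.toFun (star (q.sum fun i a => a • ((V ^ i : unitary A) : A)) *
      (q.sum fun i a => a • ((V ^ i : unitary A) : A))) = q.sum fun i y => conj y * q i := by
    simp only [Finsupp.sum]
    rw [star_sum, Finset.sum_mul, map_sum]
    refine Finset.sum_congr rfl fun i hi => ?_
    rw [Finset.mul_sum, map_sum]
    have h3 : ∀ j ∈ q.support, φ.toFun (star (q i • ((V ^ i : unitary A) : A)) *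
        (q j • ((V ^ j : unitary A) : A))) = if i = j then conj (q i) * q i else 0 := by
      intro j _
      rw [star_smul, smul_mul_smul_comm, map_smul, h1, smul_eq_mul]
      split_ifs with h
      · subst h
        rw [mul_one]
        rfl
      · rw [mul_zero]
    rw [Finset.sum_congr rfl h3, Finset.sum_ite_eq, if_pos hi]
  rw [h2]
  rfl

theorem norm_eq (φ : TrSt A) (hV : ∀ m : ℤ, m ≠ 0 → φ.toFun ((V ^ m : unitary A) : A) = 0)
    {x : A × Cc} (hx : x ∈ (S V).topologicalClosure) : n2 φ x.1 = ‖cl x.2‖ := by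
  have hcl : IsClosed {x : A × Cc | n2 φ x.1 = ‖cl x.2‖} := by
    refine isClosed_eq ?_ ?_
    · exact (continuous_n2 φ).comp continuous_fst
    · exact (cl.continuous.comp continuous_snd).norm
  refine closure_minimal ?_ hcl hx
  intro x hx
  have h1 : x ∈ Submodule.span ℂ (Set.range (Wm V)) := hx
  obtain ⟨q, rfl⟩ := (Finsupp.mem_span_range_iff_exists_finsupp).1 h1
  have e1 : ((q.sum fun i a => a • Wm V i : A × Cc)).1 =
      q.sum fun i a => a • ((V ^ i : unitary A) : A) := by
    rw [Finsupp.sum, Finsupp.sum, Prod.fst_sum]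
    rfl
  have e2 : cl ((q.sum fun i a => a • Wm V i : A × Cc)).2 =
      Finsupp.linearCombination ℂ (@fourierLp (1 : ℝ) _ 2 _) q := by
    rw [Finsupp.linearCombination_apply, Finsupp.sum, Finsupp.sum, Prod.snd_sum, map_sum]
    refine Finset.sum_congr rfl fun m _ => ?_
    rw [Prod.smul_snd, map_smul]
    rfl
  simp only [Set.mem_setOf_eq]
  rw [e1, e2, n2_comb V φ hV]
  have hv := orthonormal_fourier (T := (1 : ℝ))
  rw [← hv.inner_finsupp_eq_sum_left, norm_eq_sqrt_re_inner (𝕜 := ℂ)]

end pair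

theorem fou (ε : ℝ) (hε : 0 < ε) : ∃ k : ℤ →₀ ℂ, k 0 = 0 ∧ (∀ m, k (-m) = conj (k m)) ∧
    nk k ≤ 2 ∧ ∀ (A : Type) [CStarAlgebra A] (φ : TrSt A) (V : unitary A),
      (∀ m : ℤ, m ≠ 0 → φ.toFun ((V ^ m : unitary A) : A) = 0) →
      n2 φ (NormedSpace.exp (Complex.I • k.sum fun m s => s • ((V ^ m : unitary A) : A))
        - (V : A)) < ε := by
  have h1 := hasSum_fourier_series_L2 agL
  obtain ⟨s, hs⟩ := (Metric.tendsto_atTop.1 h1) ε hε
  have h2 := hs (s ∪ s.image (fun m => -m)) Finset.subset_union_left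
  rw [← cl_pf, dist_eq_norm] at h2
  refine ⟨kf s, kf_zero s, kf_neg s, nk_kf s, ?_⟩
  intro A _ φ V hV
  set y : A × Cc := (kf s).sum fun m a => a • Wm V m with hy
  have hyS : y ∈ S V := by
    rw [mem_S]
    exact Submodule.sum_mem _ fun m _ => Submodule.smul_mem _ _ (Submodule.subset_span ⟨m, rfl⟩)
  have y1 : y.1 = (kf s).sum fun m a => a • ((V ^ m : unitary A) : A) := by
    rw [hy, Finsupp.sum, Prod.fst_sum]; rfl
  have y2 : y.2 = pf (kf s) := by
    rw [hy, Finsupp.sum, Prod.snd_sum]; rfl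
  have hz : NormedSpace.exp (Complex.I • y) - Wm V 1 ∈ (S V).topologicalClosure := by
    refine sub_mem (exp_mem V (Subalgebra.smul_mem _ hyS _)) ?_
    exact (S V).le_topologicalClosure (Submodule.subset_span ⟨1, rfl⟩)
  have h3 := norm_eq V φ hV hz
  letI : NormedAlgebra ℚ (A × Cc) := NormedAlgebra.restrictScalars ℚ ℂ _
  letI : Algebra ℚ A := Algebra.restrictScalars ℚ ℂ _
  have e1 : (NormedSpace.exp (Complex.I • y)).1 = NormedSpace.exp (Complex.I • y).1 :=
    NormedSpace.map_exp (RingHom.fst A Cc) continuous_fst _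
  have e2 : (NormedSpace.exp (Complex.I • y)).2 = NormedSpace.exp (Complex.I • y).2 :=
    NormedSpace.map_exp (RingHom.snd A Cc) continuous_snd _
  rw [Prod.fst_sub, Prod.snd_sub, e1, e2, Prod.smul_fst, Prod.smul_snd, y1, y2] at h3
  have h4 : (Wm V 1).1 = (V : A) := by simp [Wm]
  have h5 : (Wm V 1).2 = fourier 1 := rfl
  rw [h4, h5] at h3
  rw [h3]
  exact (key (kf_neg s)).trans_lt h2

end Pool.Agent.H770R2.FA
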