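import Mathlib
import Pool.Agent.H770R2.FA.Ev

/-! The flow of a trace preserving star derivation of the group ring of a free group, in an
abstract C*-algebra with a tracial state. -/

open scoped ComplexOrder ComplexConjugate
open Finset

namespace Pool.Agent.H770R2.FA

open Pool.Agent.H581R.FF hiding n2
open Pool.Agent.H770R2.UL

variable {κ : Type} {A : Type} [CStarAlgebra A]

/-- `π'` is obtained from `π` by the flow of `D` for time `t` -/
def FlowA (D : GR κ →ₗ[ℂ] GR κ) (t : ℝ) (π π' : FreeGroup κ →* unitary A) : Prop :=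
  ∀ f : GR κ, HasSum (fun n : ℕ => ((t : ℂ) ^ n / (n.factorial : ℂ)) • ev π (D^[n] f)) (ev π' f)

/-- the terms of the series -/
noncomputable def am (D : GR κ →ₗ[ℂ] GR κ) (t : ℝ) (π : FreeGroup κ →* unitary A) (n : ℕ)
    (f : GR κ) : A := ((t : ℂ) ^ n / (n.factorial : ℂ)) • ev π (D^[n] f)

theorem iter_add (D : GR κ →ₗ[ℂ] GR κ) (n : ℕ) (f g : GR κ) :
    D^[n] (f + g) = D^[n] f + D^[n] g := iterate_map_add D n f g

theorem iter_smul (D : GR κ →ₗ[ℂ] GR κ) (n : ℕ) (c : ℂ) (f : GR κ) :
    D^[n] (c • f) = c • D^[n] f := by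
  induction n with
  | zero => rfl
  | succ n ih => rw [Function.iterate_succ_apply', Function.iterate_succ_apply', ih, map_smul]

theorem iter_zero (D : GR κ →ₗ[ℂ] GR κ) (n : ℕ) : D^[n] (0 : GR κ) = 0 := iterate_map_zero D n

theorem leib_iter (D : GR κ →ₗ[ℂ] GR κ) (hD : ∀ x y, D (x * y) = D x * y + x * D y) (n : ℕ)
    (a b : GR κ) :
    D^[n] (a * b) = ∑ ij ∈ antidiagonal n, n.choose ij.1 • (D^[ij.1] a * D^[ij.2] b) := by
  induction n with
  | zero => simp
  | succ n ih =>
    rw [sum_antidiagonal_choose_succ_nsmul (M := GR κ) (fun i j => D^[i] a * D^[j] b) n]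
    simp only [Function.iterate_succ_apply', ih, map_sum, map_nsmul, hD, smul_add,
      sum_add_distrib]
    rw [add_comm]
    congr 1
    refine sum_congr rfl fun ⟨i, j⟩ hij ↦ ?_
    rw [n.choose_symm_of_eq_add (mem_antidiagonal.1 hij).symm]

theorem am_add (D : GR κ →ₗ[ℂ] GR κ) (t : ℝ) (π : FreeGroup κ →* unitary A) (n : ℕ)
    (f g : GR κ) : am D t π n (f + g) = am D t π n f + am D t π n g := by
  unfold am
  rw [iter_add, map_add, smul_add]

theorem am_smul (D : GR κ →ₗ[ℂ] GR κ) (t : ℝ) (π : FreeGroup κ →* unitary A) (n : ℕ)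
    (c : ℂ) (f : GR κ) : am D t π n (c • f) = c • am D t π n f := by
  unfold am
  rw [iter_smul, map_smul, smul_comm]

theorem am_zero (D : GR κ →ₗ[ℂ] GR κ) (t : ℝ) (π : FreeGroup κ →* unitary A) (n : ℕ) :
    am D t π n (0 : GR κ) = 0 := by
  unfold am
  rw [iter_zero, map_zero, smul_zero]

theorem am_mul (D : GR κ →ₗ[ℂ] GR κ) (hD : ∀ x y, D (x * y) = D x * y + x * D y) (t : ℝ)
    (π : FreeGroup κ →* unitary A) (n : ℕ) (a b : GR κ) :
    am D t π n (a * b) = ∑ ij ∈ antidiagonal n, am D t π ij.1 a * am D t π ij.2 b := by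
  unfold am
  rw [leib_iter D hD, map_sum, smul_sum]
  refine sum_congr rfl fun ⟨i, j⟩ hij => ?_
  have hn : i + j = n := mem_antidiagonal.1 hij
  subst hn
  rw [map_nsmul, map_mul, smul_mul_smul_comm, ← Nat.cast_smul_eq_nsmul ℂ, smul_smul]
  congr 1
  show (t : ℂ) ^ (i + j) / ((i + j).factorial : ℂ) * ((i + j).choose i : ℂ) =
    (t : ℂ) ^ i / (i.factorial : ℂ) * ((t : ℂ) ^ j / (j.factorial : ℂ))
  rw [Nat.choose_symm_add, Nat.add_choose]
  have h1 : ((i.factorial * j.factorial : ℕ) : ℂ) ≠ 0 :=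
    Nat.cast_ne_zero.2 (Nat.mul_ne_zero i.factorial_ne_zero j.factorial_ne_zero)
  rw [Nat.cast_div (Nat.factorial_mul_factorial_dvd_factorial_add i j) h1]
  have h2 : (i.factorial : ℂ) ≠ 0 := Nat.cast_ne_zero.2 i.factorial_ne_zero
  have h3 : (j.factorial : ℂ) ≠ 0 := Nat.cast_ne_zero.2 j.factorial_ne_zero
  have h4 : ((i + j).factorial : ℂ) ≠ 0 := Nat.cast_ne_zero.2 (i + j).factorial_ne_zero
  push_cast
  field_simp
  ring

theorem norm_am_bs [DecidableEq κ] (D : GR κ →ₗ[ℂ] GR κ) {K : ℝ} (hK : Bdd D K) (t : ℝ)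
    (π : FreeGroup κ →* unitary A) (n : ℕ) (w : FreeGroup κ) :
    ‖am D t π n (bs w)‖ ≤ (|t| * K) ^ n * 2 ^ w.norm := by
  unfold am
  rw [norm_smul, norm_div, norm_pow, Complex.norm_real, Complex.norm_natCast, Real.norm_eq_abs]
  have h1 := (norm_ev_le π (D^[n] (bs w))).trans (hK n w)
  have h2 : (0 : ℝ) < n.factorial := Nat.cast_pos.2 n.factorial_pos
  calc |t| ^ n / n.factorial * ‖ev π (D^[n] (bs w))‖
      ≤ |t| ^ n / n.factorial * (n.factorial * K ^ n * 2 ^ w.norm) := by gcongr
    _ = (|t| * K) ^ n * 2 ^ w.norm := by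
        field_simp
        ring

theorem single_eq (w : FreeGroup κ) (c : ℂ) : (MonoidAlgebra.single w c : GR κ) = c • bs w := by
  rw [bs, MonoidAlgebra.smul_single', mul_one]

theorem summable_am [DecidableEq κ] (D : GR κ →ₗ[ℂ] GR κ) {K : ℝ} (hK0 : 0 < K) (hK : Bdd D K)
    (t : ℝ) (ht : |t| * K < 1) (π : FreeGroup κ →* unitary A) (f : GR κ) :
    Summable fun n => ‖am D t π n f‖ := by
  induction f using MonoidAlgebra.induction_linear with
  | zero => simp [am_zero]
  | add a b ha hb =>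
    refine Summable.of_nonneg_of_le (fun n => norm_nonneg _) (fun n => ?_) (ha.add hb)
    rw [am_add]
    exact norm_add_le _ _
  | single w c =>
    have h1 : Summable fun n : ℕ => ‖c‖ * ((|t| * K) ^ n * 2 ^ w.norm) :=
      ((summable_geometric_of_lt_one (by positivity) ht).mul_right _).mul_left _
    refine Summable.of_nonneg_of_le (fun n => norm_nonneg _) (fun n => ?_) h1
    rw [single_eq, am_smul, norm_smul]
    exact mul_le_mul_of_nonneg_left (norm_am_bs D hK t π n w) (norm_nonneg c)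

/-- existence of the flow for short times -/
theorem exists_flow [DecidableEq κ] (D : GR κ →ₗ[ℂ] GR κ) (hD : IsDer D) {K : ℝ} (hK0 : 0 < K)
    (hK : Bdd D K) (π : FreeGroup κ →* unitary A) (t : ℝ) (ht : |t| * K < 1) :
    ∃ π' : FreeGroup κ →* unitary A, FlowA D t π π' := by
  have hs := summable_am D hK0 hK t ht π
  set Φ : GR κ → A := fun f => ∑' n, am D t π n f with hΦ
  have hsum : ∀ f, HasSum (fun n => am D t π n f) (Φ f) := fun f => (hs f).of_norm.hasSum
  have hadd : ∀ f g, Φ (f + g) = Φ f + Φ g := by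
    intro f g
    have := (hsum f).add (hsum g)
    simp only [← am_add] at this
    exact (hsum (f + g)).unique this
  have hsmul : ∀ (c : ℂ) f, Φ (c • f) = c • Φ f := by
    intro c f
    have := (hsum f).const_smul c
    simp only [← am_smul] at this
    exact (hsum (c • f)).unique this
  have hmul : ∀ f g, Φ (f * g) = Φ f * Φ g := by
    intro f g
    simp only [hΦ]
    rw [tsum_mul_tsum_eq_tsum_sum_antidiagonal_of_summable_norm (hs f) (hs g)]
    refine tsum_congr fun n => ?_
    exact am_mul D hD.leib t π n f g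
  have hone : Φ 1 = 1 := by
    have hD1 : D 1 = 0 := by
      have := hD.leib 1 1
      simpa using this
    have h0 : ∀ n, n ≠ 0 → am D t π n 1 = 0 := by
      intro n hn
      obtain ⟨m, rfl⟩ := Nat.exists_eq_succ_of_ne_zero hn
      unfold am
      rw [Function.iterate_succ_apply, hD1, iter_zero, map_zero, smul_zero]
    simp only [hΦ]
    rw [tsum_eq_single 0 h0]
    unfold am
    simp
  have hstar : ∀ f, Φ (st f) = star (Φ f) := by
    intro f
    have h1 := (hsum f).star
    have h2 : (fun n => star (am D t π n f)) = fun n => am D t π n (st f) := by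
      funext n
      have h3 : ∀ n, D^[n] (st f) = st (D^[n] f) := by
        intro n
        induction n with
        | zero => rfl
        | succ n ih => rw [Function.iterate_succ_apply', Function.iterate_succ_apply', ih, hD.star]
      unfold am
      rw [h3, ev_st, star_smul]
      congr 1
      simp
    rw [h2] at h1
    exact (hsum (st f)).unique h1
  have hunit : ∀ w, Φ (bs w) ∈ unitary A := by
    intro w
    rw [Unitary.mem_iff, ← hstar, st_bs, ← hmul, ← hmul]
    have e1 : bs w⁻¹ * bs w = (1 : GR κ) := by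
      rw [bs, bs, MonoidAlgebra.single_mul_single]; simp [MonoidAlgebra.one_def]
    have e2 : bs w * bs w⁻¹ = (1 : GR κ) := by
      rw [bs, bs, MonoidAlgebra.single_mul_single]; simp [MonoidAlgebra.one_def]
    rw [e1, e2]
    exact ⟨hone, hone⟩
  let π' : FreeGroup κ →* unitary A :=
    { toFun := fun w => ⟨Φ (bs w), hunit w⟩
      map_one' := Subtype.ext (by
        show Φ (bs 1) = 1
        exact hone)
      map_mul' := fun a b => Subtype.ext (by
        show Φ (bs (a * b)) = Φ (bs a) * Φ (bs b)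
        rw [← hmul, bs, bs, bs, MonoidAlgebra.single_mul_single, one_mul]) }
  refine ⟨π', fun f => ?_⟩
  have e : ev π' f = Φ f := by
    induction f using MonoidAlgebra.induction_linear with
    | zero =>
      rw [map_zero]
      have := hsmul 0 0
      simpa using this.symm
    | add a b ha hb => rw [map_add, hadd, ha, hb]
    | single w c =>
      rw [single_eq, map_smul, hsmul, ev_bs]
      rfl
  rw [e]
  exact hsum f

/-- second order Taylor bound -/
theorem taylor [DecidableEq κ] (D : GR κ →ₗ[ℂ] GR κ) {K : ℝ} (hK0 : 0 < K) (hK : Bdd D K)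
    (f : GR κ) : ∃ C : ℝ, 0 ≤ C ∧ ∀ (A : Type) [CStarAlgebra A] (π π' : FreeGroup κ →* unitary A)
      (t : ℝ), |t| * K ≤ 1 / 2 → FlowA D t π π' →
      ‖ev π' f - ev π f - (t : ℂ) • ev π (D f)‖ ≤ C * t ^ 2 := by
  induction f using MonoidAlgebra.induction_linear with
  | zero =>
    refine ⟨0, le_rfl, fun A _ π π' t _ _ => ?_⟩
    simp
  | add a b ha hb =>
    obtain ⟨C, hC, h⟩ := ha
    obtain ⟨C', hC', h'⟩ := hb
    refine ⟨C + C', add_nonneg hC hC', fun A _ π π' t ht hf => ?_⟩
    have h1 := h A π π' t ht hf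
    have h2 := h' A π π' t ht hf
    rw [map_add, map_add, map_add, map_add, smul_add]
    calc ‖ev π' a + ev π' b - (ev π a + ev π b) - ((t : ℂ) • ev π (D a) + (t : ℂ) • ev π (D b))‖
        = ‖(ev π' a - ev π a - (t : ℂ) • ev π (D a)) + (ev π' b - ev π b - (t : ℂ) • ev π (D b))‖ := by
          congr 1; abel
      _ ≤ _ := norm_add_le _ _
      _ ≤ C * t ^ 2 + C' * t ^ 2 := add_le_add h1 h2
      _ = _ := by ring
  | single w c =>
    refine ⟨‖c‖ * (2 * K ^ 2 * 2 ^ w.norm), by positivity, fun A _ π π' t ht hf => ?_⟩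
    have hlt : |t| * K < 1 := by linarith
    rw [single_eq, map_smul, map_smul, map_smul, map_smul, smul_comm (t : ℂ) c, ← smul_sub,
      ← smul_sub, norm_smul, mul_assoc]
    refine mul_le_mul_of_nonneg_left ?_ (norm_nonneg c)
    have h1 : HasSum (fun n => am D t π n (bs w)) (ev π' (bs w)) := hf (bs w)
    have h2 := (hasSum_nat_add_iff' (f := fun n => am D t π n (bs w)) 2).2 h1
    have e0 : ∑ i ∈ range 2, am D t π i (bs w) = ev π (bs w) + (t : ℂ) • ev π (D (bs w)) := by
      rw [sum_range_succ, sum_range_one]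
      unfold am
      simp
    rw [e0] at h2
    rw [sub_sub]
    have hg : HasSum (fun n : ℕ => (|t| * K) ^ (n + 2) * 2 ^ w.norm)
        ((|t| * K) ^ 2 * (1 - |t| * K)⁻¹ * 2 ^ w.norm) := by
      have := ((hasSum_geometric_of_lt_one (by positivity) hlt).mul_left ((|t| * K) ^ 2)).mul_right
        ((2 : ℝ) ^ w.norm)
      have e : (fun n : ℕ => (|t| * K) ^ (n + 2) * 2 ^ w.norm) =
          fun n : ℕ => (|t| * K) ^ 2 * (|t| * K) ^ n * 2 ^ w.norm := by
        funext n
        ring
      rw [e]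
      exact this
    have h3 : ‖ev π' (bs w) - (ev π (bs w) + (t : ℂ) • ev π (D (bs w)))‖ ≤
        (|t| * K) ^ 2 * (1 - |t| * K)⁻¹ * 2 ^ w.norm := by
      rw [← h2.tsum_eq]
      exact tsum_of_norm_bounded hg fun n => norm_am_bs D hK t π (n + 2) w
    refine h3.trans ?_
    have h4 : (1 - |t| * K)⁻¹ ≤ 2 := by
      rw [inv_le_comm₀ (by linarith) (by norm_num)]
      linarith
    have h5 : (|t| * K) ^ 2 = t ^ 2 * K ^ 2 := by rw [mul_pow, sq_abs]
    rw [h5]
    calc t ^ 2 * K ^ 2 * (1 - |t| * K)⁻¹ * 2 ^ w.norm ≤ t ^ 2 * K ^ 2 * 2 * 2 ^ w.norm := by gcongr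
      _ = _ := by ring

/-- the flow preserves the law -/
theorem flow_std (D : GR κ →ₗ[ℂ] GR κ) (hD : IsDer D) (φ : TrSt A)
    (π π' : FreeGroup κ →* unitary A) (t : ℝ) (hf : FlowA D t π π') (hπ : StdA φ π) :
    StdA φ π' := by
  intro w hw
  have h1 := (hf (bs w)).map φ.toFun (continuous_toFun φ)
  rw [ev_bs] at h1
  have h2 : (⇑φ.toFun ∘ fun n : ℕ => ((t : ℂ) ^ n / (n.factorial : ℂ)) • ev π (D^[n] (bs w))) =
      fun _ => 0 := by
    funext n
    show φ.toFun (((t : ℂ) ^ n / (n.factorial : ℂ)) • ev π (D^[n] (bs w))) = 0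
    rw [map_smul, phi_ev φ π hπ]
    cases n with
    | zero =>
      rw [Function.iterate_zero, id, bs, MonoidAlgebra.coeff_single, Finsupp.single_eq_of_ne' hw,
        smul_zero]
    | succ n => rw [Function.iterate_succ_apply', hD.tr, smul_zero]
  rw [h2] at h1
  exact h1.unique hasSum_zero

/-- elements killed by the derivation do not move -/
theorem flow_fix (D : GR κ →ₗ[ℂ] GR κ) (π π' : FreeGroup κ →* unitary A) (t : ℝ)
    (hf : FlowA D t π π') (f : GR κ) (h0 : D f = 0) : ev π' f = ev π f := by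
  refine (hf f).unique ?_
  have h1 : ∀ n, n ≠ 0 → ((t : ℂ) ^ n / (n.factorial : ℂ)) • ev π (D^[n] f) = 0 := by
    intro n hn
    obtain ⟨m, rfl⟩ := Nat.exists_eq_succ_of_ne_zero hn
    rw [Function.iterate_succ_apply, h0, iter_zero, map_zero, smul_zero]
  have h2 := hasSum_single (f := fun n : ℕ => ((t : ℂ) ^ n / (n.factorial : ℂ)) • ev π (D^[n] f)) 0 h1
  simpa using h2

end Pool.Agent.H770R2.FA
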