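import Mathlib
import Pool.Agent.H770R2.FA.Flow

/-! The flow for time one in `N` steps. -/

open scoped ComplexOrder ComplexConjugate

namespace Pool.Agent.H770R2.FA

open Pool.Agent.H581R.FF hiding n2
open Pool.Agent.H770R2.UL

/-- `‖exp y - 1 - y‖ ≤ ‖y‖²` for `‖y‖ ≤ 1` -/
lemma exp_bound {A : Type} [NormedRing A] [NormedAlgebra ℂ A] [CompleteSpace A] (y : A)
    (hy : ‖y‖ ≤ 1) : ‖NormedSpace.exp y - 1 - y‖ ≤ ‖y‖ ^ 2 := by
  have h1 : HasSum (fun n : ℕ => ((n.factorial : ℂ)⁻¹) • y ^ n) (NormedSpace.exp y) :=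
    NormedSpace.exp_series_hasSum_exp' (𝕂 := ℂ) y
  have h2 := (hasSum_nat_add_iff' 2).2 h1
  have h3 : HasSum (fun n : ℕ => ((n.factorial : ℝ)⁻¹) • ‖y‖ ^ n) (NormedSpace.exp ‖y‖) :=
    NormedSpace.exp_series_hasSum_exp' (𝕂 := ℝ) ‖y‖
  have h4 := (hasSum_nat_add_iff' 2).2 h3
  rw [← Real.exp_eq_exp_ℝ] at h4
  simp only [Finset.sum_range_succ, Finset.sum_range_zero, Nat.factorial_zero, Nat.cast_one,
    inv_one, pow_zero, one_smul, zero_add, Nat.factorial_one, pow_one] at h2 h4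
  have h5 : ‖NormedSpace.exp y - (1 + y)‖ ≤ Real.exp ‖y‖ - (1 + ‖y‖) := by
    rw [← h2.tsum_eq]
    refine tsum_of_norm_bounded h4 (fun n => ?_)
    rw [norm_smul, smul_eq_mul]
    refine mul_le_mul (le_of_eq ?_) (norm_pow_le' y (by omega)) (norm_nonneg _) (by positivity)
    rw [norm_inv, Complex.norm_natCast]
  have h6 : ‖Real.exp ‖y‖ - 1 - ‖y‖‖ ≤ ‖(‖y‖)‖ ^ 2 :=
    Real.norm_exp_sub_one_sub_id_le (by rwa [norm_norm])
  rw [norm_norm] at h6
  have h7 := (le_abs_self _).trans h6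
  rw [sub_sub]
  refine h5.trans ?_
  linarith

lemma tele {A : Type} [CStarAlgebra A] (φ : TrSt A) (a : ℕ → A) (B : ℝ) (N : ℕ)
    (h : ∀ j < N, n2 φ (a (j + 1) - a j) ≤ B) : n2 φ (a N - a 0) ≤ N * B := by
  induction N with
  | zero => simp [n2]
  | succ N ih =>
    have h1 := ih (fun j hj => h j (by omega))
    have h2 := h N (by omega)
    have e : a (N + 1) - a 0 = (a (N + 1) - a N) + (a N - a 0) := by abel
    rw [e]
    refine (n2_add_le φ _ _).trans ?_
    push_cast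
    linarith

theorem nstep {κ : Type} [DecidableEq κ] (D : GR κ →ₗ[ℂ] GR κ) (hD : IsDer D) (K : ℝ)
    (hK : 0 < K) (hB : Bdd D K) (k0 E : GR κ) (g u : FreeGroup κ)
    (hg : D (bs g) = Complex.I • ((k0 + E) * bs g)) (hk0 : D k0 = 0) (hst : st k0 = k0)
    (η : ℝ) (hη : 0 < η) {A : Type} [CStarAlgebra A] (φ : TrSt A) (π : FreeGroup κ →* unitary A)
    (hS : StdA φ π) :
    ∃ π' : FreeGroup κ →* unitary A, StdA φ π' ∧
      (∀ w, D (bs w) = 0 → π' w = π w) ∧
      n2 φ ((π' u : A) - (π u : A)) ≤ l2 (D (bs u)) + η ∧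
      n2 φ ((π' g : A) - NormedSpace.exp (Complex.I • ev π k0) * (π g : A)) ≤ l2 E + η := by
  obtain ⟨Cu, hCu0, hCu⟩ := taylor D hK hB (bs u)
  obtain ⟨Cg, hCg0, hCg⟩ := taylor D hK hB (bs g)
  have hXs : ev π k0 ∈ selfAdjoint A := by
    rw [selfAdjoint.mem_iff, ← ev_st π k0, hst]
  have hXr : ∀ r : ℝ, (r : ℂ) • ev π k0 ∈ selfAdjoint A := by
    intro r
    rw [selfAdjoint.mem_iff] at hXs ⊢
    rw [star_smul, hXs, Complex.star_def, Complex.conj_ofReal]
  -- choice of N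
  obtain ⟨N, hN⟩ := exists_nat_gt (max (max 1 (2 * K)) (max ‖ev π k0‖
    (max (Cu / η) ((Cg + ‖ev π k0‖ ^ 2) / η))))
  have hN1 : (1 : ℝ) < N := lt_of_le_of_lt ((le_max_left _ _).trans (le_max_left _ _)) hN
  have hN2 : 2 * K < N := lt_of_le_of_lt ((le_max_right _ _).trans (le_max_left _ _)) hN
  have hN3 : ‖ev π k0‖ < N := lt_of_le_of_lt ((le_max_left _ _).trans (le_max_right _ _)) hN
  have hN4 : Cu / η < N := lt_of_le_of_lt
    ((le_max_left _ _).trans ((le_max_right _ _).trans (le_max_right _ _))) hN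
  have hN5 : (Cg + ‖ev π k0‖ ^ 2) / η < N := lt_of_le_of_lt
    ((le_max_right _ _).trans ((le_max_right _ _).trans (le_max_right _ _))) hN
  have hN0 : (0 : ℝ) < N := by linarith
  set t : ℝ := 1 / N with ht
  have ht0 : 0 < t := by positivity
  have hNt : (N : ℝ) * t = 1 := by rw [ht]; field_simp
  have htK : |t| * K < 1 / 2 := by
    rw [abs_of_pos ht0, ht, one_div, inv_mul_eq_div, div_lt_iff₀ hN0]
    linarith
  -- one step
  have step : ∀ s : {p : FreeGroup κ →* unitary A // StdA φ p},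
      ∃ s' : {p : FreeGroup κ →* unitary A // StdA φ p}, FlowA D t s.1 s'.1 := by
    rintro ⟨p, hp1⟩
    obtain ⟨p', hp'⟩ := exists_flow D hD hK hB p t (by linarith)
    exact ⟨⟨p', flow_std D hD φ p p' t hp' hp1⟩, hp'⟩
  choose F hF using step
  set s : ℕ → {p : FreeGroup κ →* unitary A // StdA φ p} :=
    fun n => F^[n] ⟨π, hS⟩ with hs
  have hs0 : (s 0).1 = π := rfl
  have hsF : ∀ n, FlowA D t (s n).1 (s (n + 1)).1 := by
    intro n
    have e : s (n + 1) = F (s n) := by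
      simp only [hs, Function.iterate_succ_apply']
    rw [e]
    exact hF (s n)
  have hfix : ∀ n, ∀ w, D (bs w) = 0 → (s n).1 w = π w := by
    intro n
    induction n with
    | zero => intro w _; rfl
    | succ n ih =>
      intro w hw
      rw [← ih w hw]
      apply Subtype.ext
      have := flow_fix D _ _ t (hsF n) (bs w) hw
      rwa [ev_bs, ev_bs] at this
  have hXn : ∀ n, ev (s n).1 k0 = ev π k0 := by
    intro n
    induction n with
    | zero => rfl
    | succ n ih =>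
      rw [← ih]
      exact flow_fix D _ _ t (hsF n) k0 hk0
  -- Taylor steps
  have hstepu : ∀ j, n2 φ (((s (j + 1)).1 u : A) - ((s j).1 u : A)) ≤
      t * l2 (D (bs u)) + Cu * t ^ 2 := by
    intro j
    have h12 := hCu A (s j).1 (s (j + 1)).1 t htK.le (hsF j)
    rw [ev_bs, ev_bs] at h12
    have h13 := (n2_le_norm φ _).trans h12
    have h14 : n2 φ ((t : ℂ) • ev (s j).1 (D (bs u))) = t * l2 (D (bs u)) := by
      rw [n2_smul, n2_ev φ (s j).1 (s j).2 _, Complex.norm_real, Real.norm_of_nonneg ht0.le]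
    have e : ((s (j + 1)).1 u : A) - ((s j).1 u : A) =
        (((s (j + 1)).1 u : A) - ((s j).1 u : A) - (t : ℂ) • ev (s j).1 (D (bs u))) +
          ((t : ℂ) • ev (s j).1 (D (bs u))) := by
      abel
    rw [e]
    refine (n2_add_le φ _ _).trans ?_
    rw [h14]
    linarith
  have hu := tele φ (fun j => ((s j).1 u : A)) _ N (fun j _ => hstepu j)
  have hCuN : Cu * t ≤ η := by
    rw [ht, mul_one_div, div_le_iff₀ hN0]
    rw [div_lt_iff₀ hη] at hN4
    linarith
  -- the one-parameter group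
  set V : ℝ → unitary A := fun r => selfAdjoint.expUnitary ⟨(r : ℂ) • ev π k0, hXr r⟩ with hV
  have hVadd : ∀ r r' : ℝ, V (r + r') = V r * V r' := by
    intro r r'
    simp only [hV]
    have hc : Commute ((r : ℂ) • ev π k0) ((r' : ℂ) • ev π k0) :=
      ((Commute.refl (ev π k0)).smul_left (r : ℂ)).smul_right (r' : ℂ)
    have h12 := Commute.expUnitary_add (a := (⟨(r : ℂ) • ev π k0, hXr r⟩ : selfAdjoint A))
      (b := ⟨(r' : ℂ) • ev π k0, hXr r'⟩) hc
    rw [← h12]
    congr 1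
    apply Subtype.ext
    show ((r + r' : ℝ) : ℂ) • ev π k0 = (r : ℂ) • ev π k0 + (r' : ℂ) • ev π k0
    rw [← add_smul, Complex.ofReal_add]
  have hV0 : V 0 = 1 := by
    simp only [hV]
    rw [← selfAdjoint.expUnitary_zero]
    congr 1
    apply Subtype.ext
    show ((0 : ℝ) : ℂ) • ev π k0 = 0
    rw [Complex.ofReal_zero, zero_smul]
  have hV1 : (V 1 : A) = NormedSpace.exp (Complex.I • ev π k0) := by
    simp only [hV, selfAdjoint.expUnitary_coe, Complex.ofReal_one, one_smul]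
  have hVt : ‖(V t : A) - 1 - (Complex.I * t) • ev π k0‖ ≤ ‖ev π k0‖ ^ 2 * t ^ 2 := by
    have e : (V t : A) = NormedSpace.exp ((Complex.I * t) • ev π k0) := by
      simp only [hV, selfAdjoint.expUnitary_coe]
      rw [mul_smul]
    rw [e]
    have hn : ‖(Complex.I * t) • ev π k0‖ = t * ‖ev π k0‖ := by
      rw [norm_smul, norm_mul, Complex.norm_I, one_mul, Complex.norm_real,
        Real.norm_of_nonneg ht0.le]
    have h12 := exp_bound ((Complex.I * t) • ev π k0) (by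
      rw [hn, ht, one_div, inv_mul_eq_div, div_le_one hN0]
      exact hN3.le)
    rw [hn] at h12
    refine h12.trans (le_of_eq ?_)
    ring
  have hstepg : ∀ j < N, n2 φ ((V (((N : ℝ) - (j + 1 : ℕ)) * t) : A) * ((s (j + 1)).1 g : A) -
      (V (((N : ℝ) - j) * t) : A) * ((s j).1 g : A)) ≤
      t * l2 E + (Cg + ‖ev π k0‖ ^ 2) * t ^ 2 := by
    intro j _
    have e1 : V (((N : ℝ) - j) * t) = V (((N : ℝ) - (j + 1 : ℕ)) * t) * V t := by
      rw [← hVadd]
      congr 1
      push_cast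
      ring
    rw [e1]
    have e2 : (V (((N : ℝ) - (j + 1 : ℕ)) * t) : A) * ((s (j + 1)).1 g : A) -
        (((V (((N : ℝ) - (j + 1 : ℕ)) * t) * V t : unitary A)) : A) * ((s j).1 g : A) =
        (V (((N : ℝ) - (j + 1 : ℕ)) * t) : A) * (((s (j + 1)).1 g : A) -
          (V t : A) * ((s j).1 g : A)) := by
      rw [show ((V (((N : ℝ) - (j + 1 : ℕ)) * t) * V t : unitary A) : A) =
        (V (((N : ℝ) - (j + 1 : ℕ)) * t) : A) * (V t : A) from rfl, mul_sub, mul_assoc]
    rw [e2, n2_unitary_mul φ (V (((N : ℝ) - (j + 1 : ℕ)) * t)).2]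
    have h12 := hCg A (s j).1 (s (j + 1)).1 t htK.le (hsF j)
    rw [ev_bs, ev_bs, hg, map_smul, map_mul, map_add, hXn j, ev_bs] at h12
    have h13 : n2 φ (ev (s j).1 E * ((s j).1 g : A)) = l2 E := by
      rw [n2_mul_unitary φ ((s j).1 g).2, n2_ev φ (s j).1 (s j).2]
    have e3 : ((s (j + 1)).1 g : A) - (V t : A) * ((s j).1 g : A) =
        (((s (j + 1)).1 g : A) - ((s j).1 g : A) -
          (t : ℂ) • (Complex.I • ((ev π k0 + ev (s j).1 E) * ((s j).1 g : A)))) +
        ((Complex.I * t) • (ev (s j).1 E * ((s j).1 g : A))) -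
        ((V t : A) - 1 - (Complex.I * t) • ev π k0) * ((s j).1 g : A) := by
      rw [sub_mul, sub_mul, one_mul, smul_smul, mul_comm (t : ℂ) Complex.I, add_mul, smul_add,
        smul_mul_assoc]
      abel
    rw [e3]
    have h14 : n2 φ ((Complex.I * t) • (ev (s j).1 E * ((s j).1 g : A))) = t * l2 E := by
      rw [n2_smul, h13, norm_mul, Complex.norm_I, one_mul,
        Complex.norm_real, Real.norm_of_nonneg ht0.le]
    have h15 : n2 φ (((V t : A) - 1 - (Complex.I * t) • ev π k0) * ((s j).1 g : A)) ≤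
        ‖ev π k0‖ ^ 2 * t ^ 2 := by
      rw [n2_mul_unitary φ ((s j).1 g).2]
      exact (n2_le_norm φ _).trans hVt
    refine (n2_sub_le φ _ _).trans ?_
    refine (add_le_add (n2_add_le φ _ _) le_rfl).trans ?_
    rw [h14]
    have h17 := (n2_le_norm φ _).trans h12
    linarith
  have hgN := tele φ (fun j => (V (((N : ℝ) - (j : ℕ)) * t) : A) * ((s j).1 g : A)) _ N hstepg
  have hCgN : (Cg + ‖ev π k0‖ ^ 2) * t ≤ η := by
    rw [ht, mul_one_div, div_le_iff₀ hN0]
    rw [div_lt_iff₀ hη] at hN5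
    linarith
  refine ⟨(s N).1, (s N).2, hfix N, ?_, ?_⟩
  · refine hu.trans ?_
    have : (N : ℝ) * (t * l2 (D (bs u)) + Cu * t ^ 2) =
        (N * t) * l2 (D (bs u)) + (N * t) * (Cu * t) := by ring
    rw [this, hNt]
    linarith
  · have e1 : V (((N : ℝ) - (N : ℕ)) * t) = 1 := by rw [sub_self, zero_mul, hV0]
    have e2 : V (((N : ℝ) - ((0 : ℕ) : ℝ)) * t) = V 1 := by
      rw [Nat.cast_zero, sub_zero, hNt]
    simp only [e1, e2] at hgN
    rw [hV1] at hgN
    have e3 : (((1 : unitary A) : A) * ((s N).1 g : A)) = ((s N).1 g : A) := by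
      rw [OneMemClass.coe_one, one_mul]
    rw [e3] at hgN
    refine hgN.trans ?_
    have : (N : ℝ) * (t * l2 E + (Cg + ‖ev π k0‖ ^ 2) * t ^ 2) =
        (N * t) * l2 E + (N * t) * ((Cg + ‖ev π k0‖ ^ 2) * t) := by ring
    rw [this, hNt]
    linarith

end Pool.Agent.H770R2.FA
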