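import Mathlib
import Pool.Agent.H581R.FF.TSTAGE2
import Pool.Agent.H770R2.FA.Nstep
import Pool.Agent.H770R2.FA.Fou

/-! The flow theorem for abstract tracial C*-algebras (assembly). -/

namespace Pool.Agent.H770R2.FA

open Pool.Agent.H581R.FF hiding n2
open Pool.Agent.H581R.FF.TSTAGE2 (al al_jj al_vv al_some al_inv vv_pow_ne wrd_mem)
open Pool.Agent.H770R2.UL
open scoped ComplexConjugate

theorem ev_single {κ : Type} {A : Type} [CStarAlgebra A] (π : FreeGroup κ →* unitary A)
    (w : FreeGroup κ) (s : ℂ) : ev π (MonoidAlgebra.single w s) = s • (π w : A) := by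
  rw [single_eq, map_smul, ev_bs]

theorem stage (hDER : S_DER) (hBND : S_BND) (hTR : S_TR) (hSTAR : S_STAR) (hFORM : S_FORM)
    (hFIX0 : S_FIX0) (hAD : S_AD) (hL2 : S_L2) (hCW : S_CW)
    {ι : Type} (a u : ι) (hau : a ≠ u) (ε : ℝ) (hε : 0 < ε) :
    ∃ g0 : FreeGroup ι, g0 ∈ Subgroup.closure {FreeGroup.of a, FreeGroup.of a, FreeGroup.of u} ∧
    ∀ (A : Type) [CStarAlgebra A] (φ : TrSt A) (π : FreeGroup (Option ι) →* unitary A),
      StdA φ π → ∃ π' : FreeGroup (Option ι) →* unitary A,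
        StdA φ π' ∧
        (∀ i : ι, i ≠ u → π' (FreeGroup.of (some i)) = π (FreeGroup.of (some i))) ∧
        n2 φ ((π' (FreeGroup.of (some u)) : A) - (π (FreeGroup.of (some u)) : A)) < ε ∧
        n2 φ ((π' (jj g0) : A) - (π vv : A)) < ε := by
  classical
  obtain ⟨k, k0, ks, hnk, hV⟩ := fou (ε / 4) (by positivity)
  obtain ⟨ys, hys, c, hc1, hc2⟩ := hCW ι a u hau (ε / 16) (by positivity)
  -- derivations
  have hex : ∀ c : FreeGroup ι →₀ ℝ, ∃ D : GR (Option ι) →ₗ[ℂ] GR (Option ι), DU u c k D := by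
    intro c
    obtain ⟨D, hD1, hD2⟩ := hDER (Option ι) (fun z =>
      if z = some u then Complex.I • (bs (FreeGroup.of (some u)) * Ad c k) else 0)
    refine ⟨D, ⟨k0, ks, hD1, ?_, ?_⟩⟩
    · rw [hD2, if_pos rfl]
    · intro z hz
      rw [hD2, if_neg hz]
  obtain ⟨D, hD⟩ := hex c
  obtain ⟨D1, hD1⟩ := hex (Finsupp.single 1 1)
  have hder : IsDer D := ⟨hD.leib, (hSTAR ι u c k D hD).2, hTR ι u c k D hD⟩
  obtain ⟨K, hK, hBdd⟩ := hBND (Option ι) (some u) D hD.leib hD.dz
  set g0 : FreeGroup ι := wrd (FreeGroup.of u) ys with hg0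
  set Z : FreeGroup ι →₀ ℝ := ZZ (pref (FreeGroup.of u) ys) c with hZ
  have hfix := hFIX0 ι u c k D hD
  have hysD : ∀ y ∈ ys, D (bs (jj y)) = 0 := by
    intro y hy
    refine hfix.1 _ ?_
    have h1 : Subgroup.closure {(FreeGroup.of a : FreeGroup ι)} ≤ (Subgroup.closure
        (Set.range (FreeGroup.of : Option ι → _) \ {FreeGroup.of (some u)})).comap
          (jj : FreeGroup ι →* FreeGroup (Option ι)) := by
      rw [Subgroup.closure_le]
      intro z hz
      rw [Set.mem_singleton_iff] at hz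
      subst hz
      show jj (FreeGroup.of a) ∈ Subgroup.closure
        (Set.range (FreeGroup.of : Option ι → _) \ {FreeGroup.of (some u)})
      rw [FreeGroup.map.of]
      refine Subgroup.subset_closure ⟨⟨some a, rfl⟩, ?_⟩
      intro h
      rw [Set.mem_singleton_iff] at h
      exact hau (Option.some_injective _ (FreeGroup.of_injective h))
    exact h1 (hys y hy)
  have hform := hFORM ι u c k D hD ys hysD
  rw [← hg0, ← hZ] at hform
  have hAd1 : Ad (Finsupp.single (1 : FreeGroup ι) 1) k = kk k :=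
    (hAD ι 0 0 k k0).2.2.2
  have hAdZ : Ad Z k = kk k + Ad (Z - Finsupp.single 1 1) k := by
    have h1 := (hAD ι Z (Finsupp.single 1 1) k k0).2.2.1
    rw [h1, hAd1]
    abel
  rw [hAdZ] at hform
  have hst : st (kk k : GR (Option ι)) = kk k := by
    have h1 := (hSTAR ι u (Finsupp.single 1 1) k D1 hD1).1
    rwa [hAd1] at h1
  have hnk0 : 0 ≤ nk k := Real.sqrt_nonneg _
  have hE : l2 (Ad (Z - Finsupp.single 1 1) k) ≤ ε / 8 := by
    rw [(hAD ι (Z - Finsupp.single 1 1) 0 k k0).1]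
    have h1 : 0 ≤ Pool.Agent.H581R.FF.n2 (Z - Finsupp.single 1 1) := Real.sqrt_nonneg _
    nlinarith
  have hDu : l2 (D (bs (FreeGroup.of (some u)))) ≤ ε / 8 := by
    rw [hD.du, (hL2 (Option ι) _ 1 Complex.I).2.2, (hL2 (Option ι) _ _ 1).2.1, Complex.norm_I,
      one_mul, (hAD ι c 0 k k0).1]
    have h1 : 0 ≤ Pool.Agent.H581R.FF.n2 c := Real.sqrt_nonneg _
    nlinarith
  refine ⟨g0, wrd_mem a u ys hys, ?_⟩
  intro A _ φ π hStd
  -- the new system
  let π0 : FreeGroup (Option ι) →* unitary A := π.comp (al g0⁻¹)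
  have hπ0 : ∀ w, π0 w = π (al g0⁻¹ w) := fun w => rfl
  have hal : ∀ w : FreeGroup (Option ι), al g0⁻¹ (al g0 w) = w := al_inv g0
  have hal' : ∀ w : FreeGroup (Option ι), al g0 (al g0⁻¹ w) = w := by
    intro w
    have h := al_inv g0⁻¹ w
    rwa [inv_inv] at h
  have hStd0 : StdA φ π0 := by
    intro w hw
    refine hStd _ ?_
    intro h
    apply hw
    rw [← hal' w, h, map_one]
  obtain ⟨π', hStd', hfix', hu', hg'⟩ := nstep D hder K hK hBdd (kk k)
    (Ad (Z - Finsupp.single 1 1) k) (jj g0) (FreeGroup.of (some u)) hform hfix.2 hst (ε / 8)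
    (by positivity) φ π0 hStd0
  have hsome : ∀ i : ι, π0 (FreeGroup.of (some i)) = π (FreeGroup.of (some i)) := by
    intro i
    rw [hπ0, al_some]
  refine ⟨π', hStd', ?_, ?_, ?_⟩
  · intro i hi
    rw [hfix' _ (hD.dz (some i) (fun h => hi (Option.some_injective _ h))), hsome]
  · rw [← hsome]
    refine hu'.trans_lt ?_
    linarith
  · -- the main estimate
    set V : unitary A := π0 vv with hVdef
    have hVm : ∀ m : ℤ, ((V ^ m : unitary A) : A) = (π0 (vv ^ m) : A) := by
      intro m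
      rw [map_zpow]
    have hVt := hV A φ V (fun m hm => by
      rw [hVm]
      exact hStd0 _ (vv_pow_ne m hm))
    have hX : ev π0 (kk k) = k.sum fun m s => s • ((V ^ m : unitary A) : A) := by
      unfold kk
      rw [map_finsuppSum]
      refine Finsupp.sum_congr fun m _ => ?_
      rw [ev_single, hVm]
    rw [← hX] at hVt
    have hg0c : (V : A) * (π0 (jj g0) : A) = (π vv : A) := by
      have h1 : V * π0 (jj g0) = π vv := by
        rw [hVdef, ← map_mul, hπ0, map_mul, al_vv, al_jj, map_inv, inv_mul_cancel_right]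
      rw [← h1]
      rfl
    have h2 := n2_mul_unitary φ (π0 (jj g0)).2
      (NormedSpace.exp (Complex.I • ev π0 (kk k)) - (V : A))
    have e : (π' (jj g0) : A) - (π vv : A)
        = ((π' (jj g0) : A) - NormedSpace.exp (Complex.I • ev π0 (kk k)) * (π0 (jj g0) : A))
          + (NormedSpace.exp (Complex.I • ev π0 (kk k)) - (V : A)) * (π0 (jj g0) : A) := by
      rw [sub_mul, hg0c]
      abel
    rw [e]
    refine (n2_add_le φ _ _).trans_lt ?_
    rw [h2]
    linarith

end Pool.Agent.H770R2.FA
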