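import Mathlib
import Pool.Agent.H735G.Defs2
import Pool.Agent.H770R2.FA.Stage
import Pool.Agent.H581R.FF.TDER
import Pool.Agent.H581R.FF.TBND
import Pool.Agent.H581R.FF.TTR
import Pool.Agent.H581R.FF.TSTAR
import Pool.Agent.H581R.FF.TFORM
import Pool.Agent.H581R.FF.TFIX0
import Pool.Agent.H581R.FF.TAD
import Pool.Agent.H581R.FF.TL2
import Pool.Agent.H581R.FF.TL1
import Pool.Agent.H722.FG.CW

/-! THE FLOW THEOREM for abstract unital C*-algebras with a (not necessarily faithful) tracial
state; interface with `Pool.Agent.H735G.Defs`. -/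

open scoped ComplexOrder

namespace Pool.Agent.H770R2.FA

open Pool.Agent.H581R.FF hiding n2
open Pool.Agent.H770R2.UL
open Pool.Agent.H735G (TS FlowThm)

/-- the flow theorem, general index type -/
theorem flow_thm {ι : Type} (a u : ι) (hau : a ≠ u) (ε : ℝ) (hε : 0 < ε) :
    ∃ g0 : FreeGroup ι, g0 ∈ Subgroup.closure {FreeGroup.of a, FreeGroup.of a, FreeGroup.of u} ∧
    ∀ (A : Type) [CStarAlgebra A] (φ : TrSt A) (π : FreeGroup (Option ι) →* unitary A),
      StdA φ π → ∃ π' : FreeGroup (Option ι) →* unitary A,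
        StdA φ π' ∧
        (∀ i : ι, i ≠ u → π' (FreeGroup.of (some i)) = π (FreeGroup.of (some i))) ∧
        n2 φ ((π' (FreeGroup.of (some u)) : A) - (π (FreeGroup.of (some u)) : A)) < ε ∧
        n2 φ ((π' (jj g0) : A) - (π vv : A)) < ε :=
  stage TDER.t_DER (t_BND TL1.t_L1) TTR.t_TR TSTAR.t_STAR TFORM.t_FORM TFIX0.t_FIX0 TAD.t_AD
    TL2.t_L2 Pool.Agent.H722.FG.t_CW a u hau ε hε

section bdd

variable {A : Type} [CStarAlgebra A] {φ : A →ₗ[ℂ] ℂ}

theorem re_le (h : TS φ) (x : A) : (φ (star x * x)).re ≤ ‖x‖ ^ 2 := by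
  let _ := CStarAlgebra.spectralOrder A
  let _ := CStarAlgebra.spectralOrderedRing A
  have h1 : star x * x ≤ algebraMap ℝ A (‖x‖ ^ 2) := CStarAlgebra.star_mul_le_algebraMap_norm_sq
  have h2 : 0 ≤ algebraMap ℝ A (‖x‖ ^ 2) - star x * x := sub_nonneg.2 h1
  obtain ⟨b, hb⟩ := CStarAlgebra.nonneg_iff_eq_star_mul_self.1 h2
  have h3 := h.nonneg b
  rw [← hb, map_sub] at h3
  have h4 : φ (algebraMap ℝ A (‖x‖ ^ 2)) = ((‖x‖ ^ 2 : ℝ) : ℂ) := by
    have e : algebraMap ℝ A (‖x‖ ^ 2) = ((‖x‖ ^ 2 : ℝ) : ℂ) • (1 : A) := by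
      rw [Algebra.algebraMap_eq_smul_one]
      exact (Complex.coe_smul _ _).symm
    rw [e, map_smul, h.one, smul_eq_mul, mul_one]
  rw [h4] at h3
  have h5 := (Complex.le_def.1 h3).1
  rw [Complex.sub_re, Complex.ofReal_re, Complex.zero_re] at h5
  linarith

/-- inner product core -/
@[instance_reducible]
noncomputable def tsCore (h : TS φ) : PreInnerProductSpace.Core ℂ A where
  inner x y := φ (star x * y)
  conj_inner_symm x y := by
    have : φ (star (star y * x)) = star (φ (star y * x)) := h.conj _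
    rw [star_mul, star_star] at this
    rw [this]
    rfl
  re_inner_nonneg x := (Complex.nonneg_iff.1 (h.nonneg x)).1
  add_left x y z := by rw [star_add, add_mul, map_add]
  smul_left x y r := by
    rw [star_smul, smul_mul_assoc, map_smul]
    rfl

theorem ts_bdd (h : TS φ) (x : A) : ‖φ x‖ ≤ ‖x‖ := by
  have h1 : ‖φ (star (1 : A) * x)‖ ≤ Real.sqrt (φ (star (1 : A) * 1)).re *
      Real.sqrt (φ (star x * x)).re :=
    @InnerProductSpace.Core.norm_inner_le_norm ℂ A _ _ _ (tsCore h) 1 x
  rw [star_one, one_mul, one_mul, h.one, Complex.one_re, Real.sqrt_one, one_mul] at h1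
  refine h1.trans ?_
  rw [Real.sqrt_le_left (norm_nonneg x)]
  exact re_le h x

/-- a tracial state in the sense of `H735G.TS` -/
noncomputable def toTrSt (h : TS φ) : TrSt A where
  toFun := φ
  one := h.one
  tr := h.comm
  pos := h.nonneg
  bdd := ts_bdd h

theorem n2_toTrSt (h : TS φ) (x : A) : Pool.Agent.H467F.n2 φ x = n2 (toTrSt h) x := rfl

end bdd

/-- THE FLOW THEOREM (note 818) in the form used for the generator problem. -/
theorem flowThm : FlowThm := by
  intro ε hε
  obtain ⟨g, -, hg⟩ := flow_thm (ι := Fin 3) 0 2 (by decide) ε hε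
  refine ⟨g, fun A _ φ hφ π hπ => ?_⟩
  let e : Option (Fin 3) → Fin 4 := fun z => match z with
    | none => 3
    | some i => i.castSucc
  have he : Function.Injective e := by
    intro x y hxy
    rcases x with _ | x <;> rcases y with _ | y
    · rfl
    · fin_cases y <;> simp [e] at hxy
    · fin_cases x <;> simp [e] at hxy
    · simpa [e] using hxy
  have hinj : Function.Injective (FreeGroup.map e) := FreeGroup.map_injective he
  have hstd : StdA (toTrSt hφ) (π.comp (FreeGroup.map e)) := by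
    intro w hw
    show φ (π (FreeGroup.map e w) : A) = 0
    rw [hπ, if_neg]
    intro h
    exact hw (hinj (by rw [h, map_one]))
  obtain ⟨π', -, h1, h2, h3⟩ := hg A (toTrSt hφ) (π.comp (FreeGroup.map e)) hstd
  have e0 : π' (FreeGroup.of (some 0)) = π (FreeGroup.of 0) := by
    rw [h1 0 (by decide)]
    show π (FreeGroup.map e (FreeGroup.of (some 0))) = _
    rw [FreeGroup.map.of]
    rfl
  have e1 : π' (FreeGroup.of (some 1)) = π (FreeGroup.of 1) := by
    rw [h1 1 (by decide)]
    show π (FreeGroup.map e (FreeGroup.of (some 1))) = _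
    rw [FreeGroup.map.of]
    rfl
  have e2 : (π.comp (FreeGroup.map e)) (FreeGroup.of (some 2)) = π (FreeGroup.of 2) := by
    show π (FreeGroup.map e (FreeGroup.of (some 2))) = _
    rw [FreeGroup.map.of]
    rfl
  have e3 : (π.comp (FreeGroup.map e)) vv = π (FreeGroup.of 3) := by
    show π (FreeGroup.map e (FreeGroup.of none)) = _
    rw [FreeGroup.map.of]
  have e4 : FreeGroup.lift ![π (FreeGroup.of 0), π (FreeGroup.of 1), π' (FreeGroup.of (some 2))] =
      π'.comp jj := by
    refine FreeGroup.ext_hom _ _ fun i => ?_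
    rw [FreeGroup.lift_apply_of]
    show _ = π' (jj (FreeGroup.of i))
    rw [FreeGroup.map.of]
    fin_cases i
    · exact e0.symm
    · exact e1.symm
    · rfl
  refine ⟨π' (FreeGroup.of (some 2)), ?_, ?_⟩
  · rw [n2_toTrSt hφ, ← e2]
    exact h2.le
  · rw [n2_toTrSt hφ, ← e3, e4]
    exact h3.le

end Pool.Agent.H770R2.FA
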