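import Mathlib
import Pool.Agent.H770R2.FA.Final

/-! The approximate form of the flow theorem. -/

open scoped ComplexOrder

namespace Pool.Agent.H770R2.FA

open Pool.Agent.H770R2.UL
open Pool.Agent.H735G (TS FlowThm AF)

theorem trSt_TS {A : Type} [CStarAlgebra A] (φ : TrSt A) : TS φ.toFun :=
  ⟨φ.one, φ.tr, φ.pos, fun x => φ.star_eq x⟩

/-- THE FLOW THEOREM for approximately free unitaries. -/
theorem flow_af (ε : ℝ) (hε : 0 < ε) :
    ∃ (g : FreeGroup (Fin 3)) (S : Finset (FreeGroup (Fin 4))) (δ : ℝ),
      (1 : FreeGroup (Fin 4)) ∉ S ∧ 0 < δ ∧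
      ∀ (A : Type) [CStarAlgebra A] (φ : A →ₗ[ℂ] ℂ), TS φ → ∀ x : Fin 4 → unitary A,
        (∀ w ∈ S, ‖φ ((FreeGroup.lift x w : unitary A) : A)‖ ≤ δ) →
        ∃ U' : unitary A, Pool.Agent.H467F.n2 φ ((U' : A) - (x 2 : A)) ≤ ε ∧
          Pool.Agent.H467F.n2 φ (((FreeGroup.lift ![x 0, x 1, U'] g : unitary A) : A) -
            (x 3 : A)) ≤ ε := by
  classical
  obtain ⟨g, hg⟩ := flowThm (ε / 2) (by positivity)
  obtain ⟨W, δ, hδ, hW⟩ := transfer (κ := Fin 4) (ε / 2) ε (by linarith) ({2}ᶜ : Set (Fin 4))
    (Set.toFinite _) (FreeGroup.map Fin.castSucc g) (FreeGroup.of 3) (by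
      intro A _ φ π hπ
      obtain ⟨U', h1, h2⟩ := hg A φ.toFun (trSt_TS φ) π (by
        intro w
        split_ifs with h
        · subst h
          rw [map_one, OneMemClass.coe_one, φ.one]
        · exact hπ w h)
      refine ⟨FreeGroup.lift ![π (FreeGroup.of 0), π (FreeGroup.of 1), U', π (FreeGroup.of 3)],
        ?_, ?_, ?_⟩
      · intro i hi
        rw [FreeGroup.lift_apply_of]
        fin_cases i
        · rfl
        · rfl
        · exact absurd rfl hi
        · rfl
      · intro i
        rw [FreeGroup.lift_apply_of]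
        have h0 : (0 : ℝ) ≤ ε / 2 := by positivity
        fin_cases i
        · simpa [n2] using h0
        · simpa [n2] using h0
        · exact h1
        · simpa [n2] using h0
      · have e : FreeGroup.lift ![π (FreeGroup.of 0), π (FreeGroup.of 1), U', π (FreeGroup.of 3)]
            (FreeGroup.map Fin.castSucc g) =
            FreeGroup.lift ![π (FreeGroup.of 0), π (FreeGroup.of 1), U'] g := by
          have : (FreeGroup.lift ![π (FreeGroup.of 0), π (FreeGroup.of 1), U',
              π (FreeGroup.of 3)]).comp (FreeGroup.map Fin.castSucc) =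
              FreeGroup.lift ![π (FreeGroup.of 0), π (FreeGroup.of 1), U'] := by
            refine FreeGroup.ext_hom _ _ fun i => ?_
            rw [MonoidHom.comp_apply, FreeGroup.map.of, FreeGroup.lift_apply_of,
              FreeGroup.lift_apply_of]
            fin_cases i <;> rfl
          exact DFunLike.congr_fun this g
        rw [e]
        exact h2)
  refine ⟨g, W.erase 1, δ, Finset.notMem_erase _ _, hδ, ?_⟩
  intro A _ φ hφ x hx
  obtain ⟨π', h1, h2, h3⟩ := hW A (toTrSt hφ) (FreeGroup.lift x) (by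
    intro w hw hw1
    exact hx w (Finset.mem_erase.2 ⟨hw1, hw⟩))
  refine ⟨π' (FreeGroup.of 2), ?_, ?_⟩
  · have := h2 2
    rw [FreeGroup.lift_apply_of] at this
    exact this
  · have e : FreeGroup.lift ![x 0, x 1, π' (FreeGroup.of 2)] g =
        π' (FreeGroup.map Fin.castSucc g) := by
      have : FreeGroup.lift ![x 0, x 1, π' (FreeGroup.of 2)] =
          π'.comp (FreeGroup.map Fin.castSucc) := by
        refine FreeGroup.ext_hom _ _ fun i => ?_
        rw [MonoidHom.comp_apply, FreeGroup.map.of, FreeGroup.lift_apply_of]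
        fin_cases i
        · have := h1 0 (by simp)
          rw [FreeGroup.lift_apply_of] at this
          exact this.symm
        · have := h1 1 (by simp)
          rw [FreeGroup.lift_apply_of] at this
          exact this.symm
        · rfl
      exact DFunLike.congr_fun this g
    rw [FreeGroup.lift_apply_of] at h3
    rw [e]
    exact h3

/-- The density step: if `N` contains approximately free unitaries (`AF`), then every unitary `u`
can be moved by `ε` such that a given unitary `v` comes `ε`-close to a unitary of the star algebra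
generated by `N` and the new unitary. -/
theorem density {A : Type} [CStarAlgebra A] {τ : A →ₗ[ℂ] ℂ} (hτ : TS τ) {N : StarSubalgebra ℂ A}
    (hN : AF τ N) (u v : unitary A) (ε : ℝ) (hε : 0 < ε) :
    ∃ u' : unitary A, Pool.Agent.H467F.n2 τ ((u' : A) - (u : A)) ≤ ε ∧
      ∃ y ∈ StarAlgebra.adjoin ℂ ((N : Set A) ∪ {(u' : A)}),
        y ∈ unitary A ∧ Pool.Agent.H467F.n2 τ (y - (v : A)) ≤ ε := by
  obtain ⟨g, S, δ, hS, hδ, h⟩ := flow_af ε hε
  obtain ⟨c, hc, hc2⟩ := hN u v S hS δ hδ
  obtain ⟨U', h1, h2⟩ := h A τ hτ ![c 0, c 1, c 2 * u, c 3 * v] hc2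
  set B := StarAlgebra.adjoin ℂ ((N : Set A) ∪ {((star (c 2 : unitary A) * U' : unitary A) : A)})
    with hB
  have hNB : ∀ x ∈ N, x ∈ B := fun x hx => StarAlgebra.subset_adjoin ℂ _ (Or.inl hx)
  have hU : ((star (c 2 : unitary A) * U' : unitary A) : A) ∈ B :=
    StarAlgebra.subset_adjoin ℂ _ (Or.inr rfl)
  have hU2 : (U' : A) ∈ B := by
    have e : (U' : A) = (c 2 : A) * ((star (c 2 : unitary A) * U' : unitary A) : A) := by
      rw [Submonoid.coe_mul, Unitary.coe_star, ← mul_assoc, Unitary.mul_star_self_of_mem (c 2).2,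
        one_mul]
    rw [e]
    exact mul_mem (hNB _ (hc 2)) hU
  have hw : ∀ w : FreeGroup (Fin 3), ((FreeGroup.lift ![c 0, c 1, U'] w : unitary A) : A) ∈ B := by
    intro w
    induction w using FreeGroup.induction_on with
    | C1 => rw [map_one, OneMemClass.coe_one]; exact one_mem B
    | of i =>
      rw [FreeGroup.lift_apply_of]
      fin_cases i
      · exact hNB _ (hc 0)
      · exact hNB _ (hc 1)
      · exact hU2
    | inv_of i hi =>
      rw [map_inv]
      exact star_mem hi
    | mul x y hx hy =>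
      rw [map_mul, Submonoid.coe_mul]
      exact mul_mem hx hy
  refine ⟨star (c 2 : unitary A) * U', ?_, ((star (c 3 : unitary A) *
    FreeGroup.lift ![c 0, c 1, U'] g : unitary A) : A), ?_, SetLike.coe_mem _, ?_⟩
  · have e : ((star (c 2 : unitary A) * U' : unitary A) : A) - (u : A) =
        (star (c 2 : unitary A) : A) * ((U' : A) - ((c 2 * u : unitary A) : A)) := by
      rw [Submonoid.coe_mul, Submonoid.coe_mul, mul_sub, ← mul_assoc, Unitary.coe_star,
        Unitary.coe_star_mul_self, one_mul]
    rw [e, n2_toTrSt hτ, n2_unitary_mul _ (Unitary.star_mem (c 2).2)]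
    exact h1
  · rw [Submonoid.coe_mul]
    refine mul_mem ?_ (hw g)
    rw [Unitary.coe_star]
    exact star_mem (hNB _ (hc 3))
  · have e : ((star (c 3 : unitary A) * FreeGroup.lift ![c 0, c 1, U'] g : unitary A) : A) -
        (v : A) = (star (c 3 : unitary A) : A) *
          (((FreeGroup.lift ![c 0, c 1, U'] g : unitary A) : A) - ((c 3 * v : unitary A) : A)) := by
      rw [Submonoid.coe_mul, Submonoid.coe_mul, mul_sub, ← mul_assoc, Unitary.coe_star,
        Unitary.coe_star_mul_self, one_mul]
    rw [e, n2_toTrSt hτ, n2_unitary_mul _ (Unitary.star_mem (c 3).2)]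
    exact h2

end Pool.Agent.H770R2.FA
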